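import Mathlib
import Pool.Agent.Helper212.GenBorel.Homeo

/-!
# MP_fffd22_an: topological conjugacy is Borel on a dense `G_δ` set of diffeomorphisms

The weaker form of the question (`S` a dense `G_δ` set), for every closed smooth manifold.
The topology on `Diff^∞(M)` is any Polish topology that makes the inclusion into `C(M, M)`
(with the compact-open topology, i.e. uniform convergence) continuous; the `C^∞` topology is one.
-/

open scoped Manifold ContDiff

namespace Pool.Agent.Results.MP_fffd22_an.GenericBorel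

/-- The `C^∞` diffeomorphisms of the smooth `n`-manifold `M`. -/
def Diff (n : ℕ) (M : Type*) [TopologicalSpace M] [ChartedSpace (EuclideanSpace ℝ (Fin n)) M] :
    Type _ :=
  Diffeomorph (𝓡 n) (𝓡 n) M M ∞

/-- The inclusion of the diffeomorphisms into the continuous self-maps of `M`. -/
def incl {n : ℕ} {M : Type*} [TopologicalSpace M] [ChartedSpace (EuclideanSpace ℝ (Fin n)) M]
    (f : Diff n M) : C(M, M) :=
  ⟨Diffeomorph.toEquiv f, Diffeomorph.continuous f⟩

/-- Topological conjugacy of two continuous self-maps of `M`. -/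
def TopConj {M : Type*} [TopologicalSpace M] (f g : C(M, M)) : Prop :=
  ∃ h : M ≃ₜ M, ∀ x, h (f x) = g (h x)

/-- Topological conjugacy on `S` is Borel: the conjugate pairs form a Borel subset of `S × S`,
where `Diff^∞(M)` carries the topology `τ`. -/
def ConjBorelOn {n : ℕ} {M : Type*} [TopologicalSpace M]
    [ChartedSpace (EuclideanSpace ℝ (Fin n)) M] (τ : TopologicalSpace (Diff n M))
    (S : Set (Diff n M)) : Prop :=
  @MeasurableSet (S × S) (borel (S × S)) {p : S × S | TopConj (incl p.1.1) (incl p.2.1)}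

theorem result {n : ℕ} (_hn : 2 ≤ n) {M : Type*} [TopologicalSpace M]
    [ChartedSpace (EuclideanSpace ℝ (Fin n)) M] [IsManifold (𝓡 n) ∞ M]
    [CompactSpace M] [T2Space M]
    (τ : TopologicalSpace (Diff n M)) (_polish : PolishSpace (Diff n M))
    (hι : Continuous (incl : Diff n M → C(M, M)))
    (C : Set (Diff n M)) (hC : C ∈ residual (Diff n M)) :
    ∃ S : Set (Diff n M), S ⊆ C ∧ IsGδ S ∧ Dense S ∧ ConjBorelOn τ S := by
  have : SecondCountableTopology M :=
    ChartedSpace.secondCountable_of_sigmaCompact (EuclideanSpace ℝ (Fin n)) M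
  obtain ⟨S, h1, h2, h3, h4⟩ := Helper212.GenBorel.exists_borel_conj incl hι C hC
  refine ⟨S, h1, h2, h3, ?_⟩
  have : {p : S × S | TopConj (incl p.1.1) (incl p.2.1)} =
      {p : S × S | ∃ h : M ≃ₜ M, (h : M → M) ∘ incl p.1.1 = incl p.2.1 ∘ h} := by
    ext p
    constructor
    · rintro ⟨h, hh⟩; exact ⟨h, funext hh⟩
    · rintro ⟨h, hh⟩; exact ⟨h, fun x => congrFun hh x⟩
  unfold ConjBorelOn
  rw [this]
  exact h4

end Pool.Agent.Results.MP_fffd22_an.GenericBorel
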